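import Pool.Agent.Q81.TF.Main
import Pool.Agent.Q81.TF.Neck
import Pool.Agent.Q81.TF.Crit0
import Pool.Agent.Q295.TF.AsyB
import Pool.Agent.Q295.TF.AsyC
import Pool.Agent.Q295.TF.Grow
import Pool.Agent.Q222.TF.Base
import Pool.Agent.Q222.TF.Sla
import Pool.Agent.Q222.TF.Wrap
import Pool.Agent.Q192.TF.ZCut
import Pool.Agent.Q44.TF.CW
import Pool.Agent.Q81.TF.WS
import Pool.Agent.Q91.TF.BIG
import Pool.Agent.Q91.TF.EPS
import Pool.Agent.Q91.TF.PSI
import Pool.Agent.Q142.TF.SLA1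
import Pool.Agent.Q162.TF.HSM
import Pool.Agent.Q162.TF.SL2
import Pool.Agent.Q186.TF.SL3
import Pool.Agent.Q177.TF.FWD

open Set MeasureTheory

namespace Pool.Agent.Results.MP_e83d7b_an.FixedContactLine

open Pool.Agent.Q81.TF (dom dx dt IsClassicalSolution FiniteDissipation)

/-- Motion of the contact line of the thin-film equation forces infinite dissipation: for every
mobility exponent `n ≥ 3`, the contact point of a classical solution, positive in `D`, with finite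
dissipation, is constant. -/
theorem result (n δ T : ℝ) (hn : 3 ≤ n) (hδ : 0 < δ) (s : ℝ → ℝ) (h : ℝ → ℝ → ℝ)
    (hsol : IsClassicalSolution n δ T s h) (hfin : FiniteDissipation n δ T s h) :
    ∃ s₀, ∀ t ∈ Ioo 0 T, s t = s₀ :=
  Pool.Agent.Q81.TF.main_of Pool.Agent.Q295.TF.s_k1 Pool.Agent.Q295.TF.s_k3
    Pool.Agent.Q295.TF.s_k4 Pool.Agent.Q295.TF.s_k5 Pool.Agent.Q222.TF.base
    Pool.Agent.Q81.TF.t_NECK2 Pool.Agent.Q81.TF.t_CRIT
    (Pool.Agent.Q91.TF.t_BIG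
      (Pool.Agent.Q177.TF.fwd (Pool.Agent.Q81.TF.t_WS Pool.Agent.Q44.TF.cw)
        Pool.Agent.Q91.TF.t_PSI
        (Pool.Agent.Q222.TF.sla Pool.Agent.Q142.TF.slid Pool.Agent.Q142.TF.sl1
          Pool.Agent.Q162.TF.sl2 Pool.Agent.Q186.TF.t_SL3 Pool.Agent.Q142.TF.sl4)
        Pool.Agent.Q91.TF.t_EPS Pool.Agent.Q162.TF.hsm)
      Pool.Agent.Q81.TF.t_CRIT Pool.Agent.Q192.TF.zcut Pool.Agent.Q295.TF.s_big1)
    Pool.Agent.Q222.TF.wrap hn hδ hsol hfin

end Pool.Agent.Results.MP_e83d7b_an.FixedContactLine
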